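import Mathlib

set_option autoImplicit false

namespace Pool.Agent.Results.MP_00e3a8_gt.Linear

/-- A diversity on `X`. -/
structure IsDiversity {X : Type} [DecidableEq X] (δ : Finset X → ℝ) : Prop where
  nonneg : ∀ A, 0 ≤ δ A
  eq_zero : ∀ A, δ A = 0 ↔ A.card ≤ 1
  triangle : ∀ A B C, C.Nonempty → δ (A ∪ B) ≤ δ (A ∪ C) + δ (B ∪ C)

/-- The induced metric. -/
def induced {X : Type} [DecidableEq X] (δ : Finset X → ℝ) (x y : X) : ℝ := δ {x, y}

/-- The l1 diversity of the image of `A` under `φ : X → ℝ^k`. -/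
noncomputable def l1 {X : Type} {k : ℕ} (φ : X → Fin k → ℝ) (A : Finset X) : ℝ :=
  ∑ i, sSup {r | ∃ a ∈ A, ∃ b ∈ A, r = |φ a i - φ b i|}

/-- `φ` has distortion `c` as a map from `(X, δ)` to the l1 diversity. -/
def HasDistortion {X : Type} {k : ℕ} (δ : Finset X → ℝ) (φ : X → Fin k → ℝ) (c : ℝ) : Prop :=
  ∃ c₁ c₂ : ℝ, 0 < c₁ ∧ 0 < c₂ ∧ c = c₁ * c₂ ∧ ∀ A, δ A / c₁ ≤ l1 φ A ∧ l1 φ A ≤ c₂ * δ A

/-- An induced-metric-based rule on the point sets `Fin n`: a dimension and a map for each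
distance function. -/
abbrev Rule : Type := ∀ n : ℕ, (Fin n → Fin n → ℝ) → Σ k : ℕ, Fin n → Fin k → ℝ

noncomputable def dv {n : ℕ} (S A : Finset (Fin n)) : ℝ :=
  if A.card ≤ 1 then 0 else max 1 ((A ∩ S).card / 2)

lemma dv_mono {n : ℕ} (S : Finset (Fin n)) {A B : Finset (Fin n)} (h : A ⊆ B) : dv S A ≤ dv S B := by
  have := Finset.card_le_card h
  unfold dv
  split_ifs with h1 h2
  · rfl
  · positivity
  · omega
  · gcongr

lemma dv_div {n : ℕ} (S : Finset (Fin n)) : IsDiversity (dv S) := by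
  have n0 : ∀ A, 0 ≤ dv S A := fun A => by unfold dv; split_ifs <;> positivity
  have k : ∀ A B C : Finset (Fin n), C.Nonempty → (A ∪ C).card ≤ 1 → A ∪ B ⊆ B ∪ C :=
    fun A B C ⟨c, hc⟩ h => Finset.union_subset (fun a ha => by
      rw [Finset.card_le_one.1 h a (by simp [ha]) c (by simp [hc])]; simp [hc])
      Finset.subset_union_left
  refine ⟨n0, fun A => ?_, fun A B C hC => ?_⟩
  · unfold dv; split_ifs with h <;> simp [h]
    exact (lt_max_of_lt_left one_pos).ne'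
  by_cases h1 : (A ∪ C).card ≤ 1
  · linarith [dv_mono S (k A B C hC h1), n0 (A ∪ C)]
  by_cases h2 : (B ∪ C).card ≤ 1
  · rw [Finset.union_comm]; linarith [dv_mono S (k B A C hC h2), n0 (B ∪ C)]
  have e : (((A ∪ B) ∩ S).card : ℝ) ≤ ((A ∪ C) ∩ S).card + ((B ∪ C) ∩ S).card := by
    exact_mod_cast (Finset.card_le_card (by grind)).trans (Finset.card_union_le _ _)
  simp only [dv, h1, h2, if_false]
  have a := le_max_left 1 ((((A ∪ C) ∩ S).card : ℝ) / 2)
  have b := le_max_left 1 ((((B ∪ C) ∩ S).card : ℝ) / 2)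
  have a' := le_max_right 1 ((((A ∪ C) ∩ S).card : ℝ) / 2)
  have b' := le_max_right 1 ((((B ∪ C) ∩ S).card : ℝ) / 2)
  split_ifs
  · linarith
  · exact max_le (by linarith) (by linarith)

lemma dv_ind {n : ℕ} (S : Finset (Fin n)) : induced (dv S) = induced (dv ∅) := by
  ext x y
  have : ((({x, y} : Finset (Fin n)) ∩ S).card : ℝ) ≤ 2 := by
    exact_mod_cast (Finset.card_le_card Finset.inter_subset_left).trans Finset.card_le_two
  simp only [induced, dv]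
  rw [max_eq_left (by linarith)]; simp

lemma main (R : Rule) (n : ℕ) (hn : 4 ≤ n) : ∃ δ : Finset (Fin n) → ℝ, IsDiversity δ ∧
    ∀ c, HasDistortion δ (R n (induced δ)).2 c → ((n : ℝ) - 1) / 4 ≤ c := by
  obtain ⟨S, -, hS⟩ := Finset.exists_subset_card_eq (s := (Finset.univ : Finset (Fin n)))
    (n := n / 2) (by simp; omega)
  have hS' : Sᶜ.card = n - n / 2 := by simp [Finset.card_compl, hS]
  obtain ⟨T, t1, t2, t3⟩ : ∃ T : Finset (Fin n), n / 2 ≤ T.card ∧ n / 2 ≤ Tᶜ.card ∧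
      l1 (R n (induced (dv ∅))).2 T ≤ l1 (R n (induced (dv ∅))).2 Tᶜ := by
    rcases le_total (l1 (R n (induced (dv ∅))).2 S) (l1 (R n (induced (dv ∅))).2 Sᶜ) with h | h
    · exact ⟨S, hS.ge, by omega, h⟩
    · exact ⟨Sᶜ, by omega, by simp [hS], by simpa using h⟩
  refine ⟨dv T, dv_div T, ?_⟩
  rw [dv_ind]
  rintro c ⟨c₁, c₂, p1, p2, rfl, h⟩
  have a := (h T).1
  have b := (h Tᶜ).2
  rw [dv, if_neg (by omega)] at a b
  rw [Finset.inter_self] at a
  rw [Finset.inter_comm, Finset.inter_compl, Finset.card_empty] at b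
  rw [div_le_iff₀ p1] at a
  have : (n : ℝ) - 1 ≤ 2 * T.card := by
    have : n ≤ 2 * T.card + 1 := by omega
    have : (n : ℝ) ≤ 2 * T.card + 1 := by exact_mod_cast this
    linarith
  norm_num at b
  nlinarith [le_max_right 1 ((T.card : ℝ) / 2), mul_le_mul_of_nonneg_right (t3.trans b) p1.le]

theorem result :
    (∀ (R : Rule) (n : ℕ), 4 ≤ n → ∃ δ : Finset (Fin n) → ℝ, IsDiversity δ ∧
      ∀ c, HasDistortion δ (R n (induced δ)).2 c → ((n : ℝ) - 1) / 4 ≤ c) ∧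
    ¬ ∃ (C : ℝ) (R : Rule), ∀ n : ℕ, 2 ≤ n → ∀ δ : Finset (Fin n) → ℝ, IsDiversity δ →
      ∃ c ≤ C * √n, HasDistortion δ (R n (induced δ)).2 c := by
  refine ⟨main, fun ⟨C, R, h⟩ => ?_⟩
  obtain ⟨m, hm⟩ := exists_nat_gt (4 * |C| + 2)
  have m2 : 2 ≤ m := by exact_mod_cast (show (2 : ℝ) ≤ m by linarith [abs_nonneg C])
  obtain ⟨δ, h1, h2⟩ := main R (m ^ 2) (by nlinarith)
  obtain ⟨c, h3, h4⟩ := h (m ^ 2) (by nlinarith) δ h1
  have := (h2 c h4).trans h3
  push_cast at this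
  rw [Real.sqrt_sq (by positivity)] at this
  nlinarith [le_abs_self C, abs_nonneg C]

end Pool.Agent.Results.MP_00e3a8_gt.Linear
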